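import Mathlib

/-!
Project HB (hairbrush bound for MP_bb5cc8_nt), part 1: multiplicative energy modulo a prime through
characters.
-/

set_option autoImplicit false

namespace Pool.Agent.helper8.HB

open Finset

/-- The character sum over `[1, J]`. -/
noncomputable def charSum {p : ℕ} (χ : DirichletCharacter ℂ p) (J : ℕ) : ℂ :=
  ∑ j ∈ Finset.Icc 1 J, χ (j : ZMod p)

/-- The number of representations `x = j q` modulo `p`, `q ∈ Q`, `1 ≤ j ≤ J`. -/
def rep (p : ℕ) (Q : Finset ℕ) (J : ℕ) (x : ZMod p) : ℕ :=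
  ((Q ×ˢ Finset.Icc 1 J).filter fun t => ((t.2 * t.1 : ℕ) : ZMod p) = x).card

variable {p : ℕ} [Fact p.Prime]

theorem conj_char (χ : DirichletCharacter ℂ p) {y : ZMod p} (hy : IsUnit y) :
    (starRingEnd ℂ) (χ y) = χ y⁻¹ := by
  obtain ⟨u, rfl⟩ := hy
  have h1 : ‖χ (u : ZMod p)‖ = 1 := DirichletCharacter.unit_norm_eq_one χ u
  have h2 : χ (u : ZMod p) * χ ((u : ZMod p)⁻¹) = 1 := by
    rw [← map_mul, ZMod.mul_inv_of_unit _ u.isUnit, map_one]
  rw [← Complex.inv_eq_conj h1]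
  exact inv_eq_of_mul_eq_one_right h2

/-- Parseval for multiplicative characters. -/
theorem parseval (f : ZMod p → ℂ) (hf : f 0 = 0) :
    ∑ χ : DirichletCharacter ℂ p, ‖∑ x, f x * χ x‖ ^ 2 = (p - 1 : ℝ) * ∑ x, ‖f x‖ ^ 2 := by
  have hp : p.Prime := Fact.out
  have key : ((∑ χ : DirichletCharacter ℂ p, ‖∑ x, f x * χ x‖ ^ 2 : ℝ) : ℂ) =
      (((p - 1 : ℝ) * ∑ x, ‖f x‖ ^ 2 : ℝ) : ℂ) := by
    push_cast
    have h1 : ∀ χ : DirichletCharacter ℂ p, ((‖∑ x, f x * χ x‖ : ℝ) : ℂ) ^ 2 =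
        ∑ x, ∑ y, f x * (starRingEnd ℂ) (f y) * (χ y⁻¹ * χ x) := by
      intro χ
      rw [← Complex.mul_conj', map_sum, Finset.sum_mul_sum]
      refine Finset.sum_congr rfl fun x _ => Finset.sum_congr rfl fun y _ => ?_
      rw [map_mul]
      by_cases hy : y = 0
      · rw [hy, hf]
        simp
      · rw [conj_char χ (isUnit_iff_ne_zero.mpr hy)]
        ring
    simp only [h1]
    rw [Finset.sum_comm]
    simp_rw [Finset.sum_comm (s := (Finset.univ : Finset (DirichletCharacter ℂ p)))]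
    rw [Finset.mul_sum]
    refine Finset.sum_congr rfl fun x _ => ?_
    rw [Finset.sum_eq_single x]
    · rw [← Finset.mul_sum]
      by_cases hx : x = 0
      · rw [hx, hf]
        simp
      · rw [DirichletCharacter.sum_char_inv_mul_char_eq ℂ (isUnit_iff_ne_zero.mpr hx), if_pos rfl,
          Complex.mul_conj', Nat.totient_prime hp]
        rw [Nat.cast_sub hp.one_lt.le]
        push_cast
        ring
    · intro y _ hyx
      rw [← Finset.mul_sum]
      by_cases hy : y = 0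
      · rw [hy, hf]
        simp
      · rw [DirichletCharacter.sum_char_inv_mul_char_eq ℂ (isUnit_iff_ne_zero.mpr hy), if_neg hyx,
          mul_zero]
    · intro h
      exact absurd (Finset.mem_univ _) h
  exact_mod_cast key

theorem rep_char (Q : Finset ℕ) (J : ℕ) (χ : DirichletCharacter ℂ p) :
    ∑ x, (rep p Q J x : ℂ) * χ x = (∑ q ∈ Q, χ (q : ZMod p)) * charSum χ J := by
  classical
  rw [charSum, Finset.sum_mul_sum, ← Finset.sum_product']
  have h1 : ∀ x : ZMod p, (rep p Q J x : ℂ) * χ x =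
      ∑ t ∈ (Q ×ˢ Finset.Icc 1 J).filter (fun t => ((t.2 * t.1 : ℕ) : ZMod p) = x),
        χ (t.1 : ZMod p) * χ (t.2 : ZMod p) := by
    intro x
    rw [rep, ← nsmul_eq_mul, ← Finset.sum_const]
    refine Finset.sum_congr rfl fun t ht => ?_
    rw [← (Finset.mem_filter.mp ht).2]
    push_cast
    rw [map_mul, mul_comm]
  simp only [h1]
  exact Finset.sum_fiberwise (Q ×ˢ Finset.Icc 1 J) (fun t => ((t.2 * t.1 : ℕ) : ZMod p))
    (fun t => χ (t.1 : ZMod p) * χ (t.2 : ZMod p))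

theorem rep_zero (Q : Finset ℕ) (J : ℕ) (hQ : ∀ q ∈ Q, ¬ p ∣ q) (hJ : J < p) :
    rep p Q J 0 = 0 := by
  have hp : p.Prime := Fact.out
  rw [rep, Finset.card_eq_zero, Finset.filter_eq_empty_iff]
  rintro ⟨q, j⟩ ht h0
  rw [Finset.mem_product, Finset.mem_Icc] at ht
  rw [ZMod.natCast_eq_zero_iff] at h0
  rcases hp.dvd_mul.mp h0 with h | h
  · have := Nat.le_of_dvd (by simp at ht; omega) h
    simp at ht this
    omega
  · exact hQ q ht.1 h

/-- Upper bound for the energy. -/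
theorem energy_bound (Q : Finset ℕ) (J r : ℕ) (hr : 1 ≤ r) (hQ : ∀ q ∈ Q, ¬ p ∣ q)
    (hinj : Set.InjOn (fun q : ℕ => (q : ZMod p)) Q) (hJ : J < p) (V : ℝ) (hV : 0 < V) :
    (p - 1 : ℝ) * ∑ x, (rep p Q J x : ℝ) ^ 2 ≤ (Q.card * J : ℝ) ^ 2 +
      V * ((p - 1 : ℝ) * Q.card) + (Q.card : ℝ) ^ 2 *
        (∑ χ : DirichletCharacter ℂ p with χ ≠ 1, ‖charSum χ J‖ ^ (2 * r)) / V ^ (r - 1) := by
  classical
  have hp : p.Prime := Fact.out
  have hp1 : (0 : ℝ) ≤ (p : ℝ) - 1 := by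
    have : (1 : ℝ) ≤ p := by exact_mod_cast hp.one_lt.le
    linarith
  set Qs : DirichletCharacter ℂ p → ℂ := fun χ => ∑ q ∈ Q, χ (q : ZMod p) with hQs
  have hQle : ∀ χ, ‖Qs χ‖ ≤ Q.card := by
    intro χ
    calc ‖Qs χ‖ ≤ ∑ q ∈ Q, ‖χ (q : ZMod p)‖ := norm_sum_le _ _
      _ ≤ ∑ _q ∈ Q, (1 : ℝ) := Finset.sum_le_sum fun q _ => DirichletCharacter.norm_le_one χ _
      _ = Q.card := by simp
  have hIle : ∀ χ : DirichletCharacter ℂ p, ‖charSum χ J‖ ≤ J := by
    intro χ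
    calc ‖charSum χ J‖ ≤ ∑ j ∈ Finset.Icc 1 J, ‖χ (j : ZMod p)‖ := norm_sum_le _ _
      _ ≤ ∑ _j ∈ Finset.Icc 1 J, (1 : ℝ) :=
          Finset.sum_le_sum fun q _ => DirichletCharacter.norm_le_one χ _
      _ = J := by simp
  -- Parseval for `Q`
  have hQpar : ∑ χ, ‖Qs χ‖ ^ 2 = (p - 1 : ℝ) * Q.card := by
    let f : ZMod p → ℂ := fun x => (((Q.filter fun q : ℕ => (q : ZMod p) = x).card : ℕ) : ℂ)
    have hf0 : f 0 = 0 := by
      have : (Q.filter fun q : ℕ => (q : ZMod p) = 0).card = 0 := by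
        rw [Finset.card_eq_zero, Finset.filter_eq_empty_iff]
        intro q hq h0
        exact hQ q hq ((ZMod.natCast_eq_zero_iff _ _).mp h0)
      simp only [f, this, Nat.cast_zero]
    have hfχ : ∀ χ : DirichletCharacter ℂ p, ∑ x, f x * χ x = Qs χ := by
      intro χ
      have h1 : ∀ x : ZMod p, f x * χ x =
          ∑ q ∈ Q.filter (fun q : ℕ => (q : ZMod p) = x), χ (q : ZMod p) := by
        intro x
        simp only [f]
        rw [← nsmul_eq_mul, ← Finset.sum_const]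
        refine Finset.sum_congr rfl fun q hq => ?_
        rw [(Finset.mem_filter.mp hq).2]
      simp only [h1]
      exact Finset.sum_fiberwise Q (fun q : ℕ => (q : ZMod p)) (fun q => χ (q : ZMod p))
    have h2 := parseval f hf0
    simp only [hfχ] at h2
    rw [h2]
    congr 1
    have h3 : ∀ x, ‖f x‖ ^ 2 = ((Q.filter fun q : ℕ => (q : ZMod p) = x).card : ℝ) := by
      intro x
      have hle : (Q.filter fun q : ℕ => (q : ZMod p) = x).card ≤ 1 := by
        rw [Finset.card_le_one]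
        intro q hq q' hq'
        rw [Finset.mem_filter] at hq hq'
        exact hinj hq.1 hq'.1 (hq.2.trans hq'.2.symm)
      simp only [f]
      rw [Complex.norm_natCast]
      rcases Nat.le_one_iff_eq_zero_or_eq_one.mp hle with h | h <;> rw [h] <;> simp
    simp only [h3]
    have h4 := Finset.card_eq_sum_card_fiberwise (s := Q) (t := (Finset.univ : Finset (ZMod p)))
      (f := fun q : ℕ => (q : ZMod p)) (fun q _ => Finset.mem_coe.mpr (Finset.mem_univ _))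
    rw [h4]
    push_cast
    rfl
  -- Parseval for the representation function
  have hpar := parseval (fun x => (rep p Q J x : ℂ)) (by
    rw [rep_zero Q J hQ hJ]
    simp)
  simp only [rep_char] at hpar
  have h5 : ∑ x : ZMod p, ‖(rep p Q J x : ℂ)‖ ^ 2 = ∑ x, (rep p Q J x : ℝ) ^ 2 := by
    refine Finset.sum_congr rfl fun x _ => ?_
    rw [Complex.norm_natCast]
  rw [h5] at hpar
  rw [← hpar]
  have hsplit : ∑ χ : DirichletCharacter ℂ p, ‖(∑ q ∈ Q, χ (q : ZMod p)) * charSum χ J‖ ^ 2 =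
      ‖Qs 1 * charSum (1 : DirichletCharacter ℂ p) J‖ ^ 2 +
        ∑ χ : DirichletCharacter ℂ p with χ ≠ 1, ‖Qs χ * charSum χ J‖ ^ 2 := by
    rw [← Finset.add_sum_erase Finset.univ _ (Finset.mem_univ (1 : DirichletCharacter ℂ p))]
    congr 1
    refine Finset.sum_congr ?_ fun χ _ => rfl
    ext χ
    simp
  rw [hsplit]
  have hone : ‖Qs 1 * charSum (1 : DirichletCharacter ℂ p) J‖ ^ 2 ≤ (Q.card * J : ℝ) ^ 2 := by
    rw [norm_mul]
    gcongr
    · exact hQle 1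
    · exact hIle 1
  have hterm : ∀ χ : DirichletCharacter ℂ p, ‖Qs χ * charSum χ J‖ ^ 2 ≤
      V * ‖Qs χ‖ ^ 2 + (Q.card : ℝ) ^ 2 * (‖charSum χ J‖ ^ (2 * r) / V ^ (r - 1)) := by
    intro χ
    rw [norm_mul, mul_pow]
    rcases le_or_gt (‖charSum χ J‖ ^ 2) V with h | h
    · have h1 : ‖Qs χ‖ ^ 2 * ‖charSum χ J‖ ^ 2 ≤ ‖Qs χ‖ ^ 2 * V := by gcongr
      have h2 : 0 ≤ (Q.card : ℝ) ^ 2 * (‖charSum χ J‖ ^ (2 * r) / V ^ (r - 1)) := by positivity
      linarith
    · have h1 : ‖charSum χ J‖ ^ 2 ≤ ‖charSum χ J‖ ^ (2 * r) / V ^ (r - 1) := by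
        rw [le_div_iff₀ (by positivity)]
        calc ‖charSum χ J‖ ^ 2 * V ^ (r - 1)
            ≤ ‖charSum χ J‖ ^ 2 * (‖charSum χ J‖ ^ 2) ^ (r - 1) := by gcongr
          _ = ‖charSum χ J‖ ^ (2 * r) := by
              rw [← pow_mul, ← pow_add]
              congr 1
              omega
      have h2 : ‖Qs χ‖ ^ 2 * ‖charSum χ J‖ ^ 2 ≤
          (Q.card : ℝ) ^ 2 * (‖charSum χ J‖ ^ (2 * r) / V ^ (r - 1)) := by
        gcongr
        exact hQle χ
      have h3 : 0 ≤ V * ‖Qs χ‖ ^ 2 := by positivity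
      linarith
  have hsum : ∑ χ : DirichletCharacter ℂ p with χ ≠ 1, ‖Qs χ * charSum χ J‖ ^ 2 ≤
      V * ((p - 1 : ℝ) * Q.card) + (Q.card : ℝ) ^ 2 *
        (∑ χ : DirichletCharacter ℂ p with χ ≠ 1, ‖charSum χ J‖ ^ (2 * r)) / V ^ (r - 1) := by
    calc ∑ χ : DirichletCharacter ℂ p with χ ≠ 1, ‖Qs χ * charSum χ J‖ ^ 2
        ≤ ∑ χ : DirichletCharacter ℂ p with χ ≠ 1, (V * ‖Qs χ‖ ^ 2 +
            (Q.card : ℝ) ^ 2 * (‖charSum χ J‖ ^ (2 * r) / V ^ (r - 1))) :=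
          Finset.sum_le_sum fun χ _ => hterm χ
      _ = V * (∑ χ : DirichletCharacter ℂ p with χ ≠ 1, ‖Qs χ‖ ^ 2) + (Q.card : ℝ) ^ 2 *
          (∑ χ : DirichletCharacter ℂ p with χ ≠ 1, ‖charSum χ J‖ ^ (2 * r)) / V ^ (r - 1) := by
          rw [Finset.sum_add_distrib, ← Finset.mul_sum, ← Finset.mul_sum, ← Finset.sum_div,
            mul_div_assoc]
      _ ≤ _ := by
          have : ∑ χ : DirichletCharacter ℂ p with χ ≠ 1, ‖Qs χ‖ ^ 2 ≤ (p - 1 : ℝ) * Q.card := by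
            rw [← hQpar]
            exact Finset.sum_le_sum_of_subset_of_nonneg (Finset.filter_subset _ _)
              fun χ _ _ => by positivity
          gcongr
  linarith

end Pool.Agent.helper8.HB
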