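import Mathlib
import Pool.Agent.helper8.HB.Char

/-!
Project HB (hairbrush bound for MP_bb5cc8_nt), part 3: the lines that meet one stem.
-/

set_option autoImplicit false

namespace Pool.Agent.helper8.HB

open Finset

/-- Lines `L q`, `q ∈ Q`, through points `c q` of one class modulo `p`: their union is large unless
the numbers `q` have large multiplicative energy with an interval modulo `p`. -/
theorem hair (p : ℕ) [Fact p.Prime] (cl : ZMod p) (Q : Finset ℕ) (J k : ℕ)
    (L : ℕ → Finset ℤ) (U : Finset ℤ) (hLU : ∀ q ∈ Q, L q ⊆ U) (hLc : ∀ q ∈ Q, (L q).card = k)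
    (c : ℕ → ℤ) (hcL : ∀ q ∈ Q, c q ∈ L q) (hc : ∀ q ∈ Q, ((c q : ℤ) : ZMod p) = cl)
    (hj : ∀ q ∈ Q, ∀ n ∈ L q, n ≠ c q → ∃ j : ℕ, 1 ≤ j ∧ j ≤ J ∧
      (n = c q + q * j ∨ c q = n + q * j)) :
    (Q.card * (k - 1)) ^ 2 ≤ U.card * (4 * ∑ x, rep p Q J x ^ 2) := by
  classical
  set ν : ℤ → ℕ := fun n => (Q.filter fun q => n ∈ L q ∧ n ≠ c q).card with hν
  -- total
  have htot : ∑ n ∈ U, ν n = Q.card * (k - 1) := by
    have h1 : ∑ n ∈ U, ν n = ∑ q ∈ Q, (U.filter fun n => n ∈ L q ∧ n ≠ c q).card := by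
      simp only [hν, Finset.card_filter]
      exact Finset.sum_comm
    rw [h1]
    have h2 : ∀ q ∈ Q, (U.filter fun n => n ∈ L q ∧ n ≠ c q).card = k - 1 := by
      intro q hq
      have : (U.filter fun n => n ∈ L q ∧ n ≠ c q) = (L q).erase (c q) := by
        ext n
        rw [Finset.mem_filter, Finset.mem_erase]
        constructor
        · rintro ⟨_, h3, h4⟩
          exact ⟨h4, h3⟩
        · rintro ⟨h3, h4⟩
          exact ⟨hLU q hq h4, h4, h3⟩
      rw [this, Finset.card_erase_of_mem (hcL q hq), hLc q hq]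
    rw [Finset.sum_congr rfl h2, Finset.sum_const, smul_eq_mul]
  -- fibre bound
  have hfib : ∀ x : ZMod p, ∑ n ∈ U with ((n : ℤ) : ZMod p) - cl = x, ν n ≤
      rep p Q J x + rep p Q J (-x) := by
    intro x
    -- pairs
    have h1 : ∑ n ∈ U with ((n : ℤ) : ZMod p) - cl = x, ν n =
        ((U ×ˢ Q).filter fun t => ((t.1 : ℤ) : ZMod p) - cl = x ∧ t.1 ∈ L t.2 ∧
          t.1 ≠ c t.2).card := by
      simp only [hν, Finset.card_filter]
      rw [Finset.sum_product, Finset.sum_filter]
      refine Finset.sum_congr rfl fun n _ => ?_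
      by_cases hx : ((n : ℤ) : ZMod p) - cl = x
      · simp [hx]
      · simp [hx]
    rw [h1]
    set S := (U ×ˢ Q).filter fun t => ((t.1 : ℤ) : ZMod p) - cl = x ∧ t.1 ∈ L t.2 ∧
          t.1 ≠ c t.2 with hS
    have h2 : S.card ≤ (S.filter fun t => c t.2 < t.1).card +
        (S.filter fun t => ¬ c t.2 < t.1).card := by
      rw [Finset.card_filter_add_card_filter_not]
    have hchoose : ∀ t ∈ S, ∃ j : ℕ, 1 ≤ j ∧ j ≤ J ∧
        (t.1 = c t.2 + t.2 * j ∨ c t.2 = t.1 + t.2 * j) := by
      intro t ht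
      rw [hS, Finset.mem_filter, Finset.mem_product] at ht
      exact hj t.2 ht.1.2 t.1 ht.2.2.1 ht.2.2.2
    choose! jj hj1 hj2 hj3 using hchoose
    have hcast : ∀ t ∈ S, ((t.1 : ℤ) : ZMod p) = x + ((c t.2 : ℤ) : ZMod p) := by
      intro t ht
      rw [hS, Finset.mem_filter, Finset.mem_product] at ht
      rw [hc t.2 ht.1.2, ← ht.2.1]
      ring
    have h3 : (S.filter fun t => c t.2 < t.1).card ≤ rep p Q J x := by
      rw [rep]
      refine Finset.card_le_card_of_injOn (fun t => (t.2, jj t)) ?_ ?_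
      · intro t ht
        rw [Finset.mem_coe, Finset.mem_filter] at ht
        have htS := ht.1
        rw [hS, Finset.mem_filter, Finset.mem_product] at htS
        rw [Finset.mem_coe, Finset.mem_filter, Finset.mem_product, Finset.mem_Icc]
        refine ⟨⟨htS.1.2, hj1 t ht.1, hj2 t ht.1⟩, ?_⟩
        have h4 := hcast t ht.1
        rcases hj3 t ht.1 with h5 | h5
        · have h6 : ((t.1 : ℤ) : ZMod p) = ((c t.2 + t.2 * jj t : ℤ) : ZMod p) := by
            rw [← h5]
          rw [h4] at h6
          push_cast at h6 ⊢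
          have h7 : x = (t.2 : ZMod p) * (jj t : ZMod p) := by
            have := sub_eq_zero.mpr h6
            have h8 : x - (t.2 : ZMod p) * (jj t : ZMod p) = 0 := by
              rw [← this]
              ring
            exact sub_eq_zero.mp h8
          rw [h7, mul_comm]
        · exfalso
          have h6 : (0 : ℤ) ≤ (t.2 : ℤ) * (jj t : ℤ) := by positivity
          have := ht.2
          linarith
      · intro t ht t' ht' htt
        rw [Finset.mem_coe, Finset.mem_filter] at ht ht'
        simp only [Prod.mk.injEq] at htt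
        obtain ⟨h4, h5⟩ := htt
        refine Prod.ext ?_ h4
        have h6 : t.1 = c t.2 + t.2 * jj t := by
          rcases hj3 t ht.1 with h7 | h7
          · exact h7
          · exfalso
            have h8 : (0 : ℤ) ≤ (t.2 : ℤ) * (jj t : ℤ) := by positivity
            have := ht.2
            linarith
        have h6' : t'.1 = c t'.2 + t'.2 * jj t' := by
          rcases hj3 t' ht'.1 with h7 | h7
          · exact h7
          · exfalso
            have h8 : (0 : ℤ) ≤ (t'.2 : ℤ) * (jj t' : ℤ) := by positivity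
            have := ht'.2
            linarith
        rw [h6, h6', h4, h5]
    have h3' : (S.filter fun t => ¬ c t.2 < t.1).card ≤ rep p Q J (-x) := by
      rw [rep]
      have hsub : ∀ t ∈ S.filter (fun t => ¬ c t.2 < t.1), c t.2 = t.1 + t.2 * jj t := by
        intro t ht
        rw [Finset.mem_filter] at ht
        rcases hj3 t ht.1 with h7 | h7
        · have h8 : (0 : ℤ) ≤ (t.2 : ℤ) * (jj t : ℤ) := by positivity
          have h9 : t.1 = c t.2 := by
            have := ht.2
            simp only [not_lt] at this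
            linarith
          have htS := ht.1
          rw [hS, Finset.mem_filter] at htS
          exact absurd h9 htS.2.2.2
        · exact h7
      refine Finset.card_le_card_of_injOn (fun t => (t.2, jj t)) ?_ ?_
      · intro t ht
        rw [Finset.mem_coe] at ht
        have h5 := hsub t ht
        rw [Finset.mem_filter] at ht
        have htS := ht.1
        rw [hS, Finset.mem_filter, Finset.mem_product] at htS
        rw [Finset.mem_coe, Finset.mem_filter, Finset.mem_product, Finset.mem_Icc]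
        refine ⟨⟨htS.1.2, hj1 t ht.1, hj2 t ht.1⟩, ?_⟩
        have h4 := hcast t ht.1
        have h6 : ((c t.2 : ℤ) : ZMod p) = ((t.1 + t.2 * jj t : ℤ) : ZMod p) := by
          rw [← h5]
        push_cast at h6 ⊢
        rw [h4] at h6
        have h8 : -x - (jj t : ZMod p) * (t.2 : ZMod p) = 0 := by
          have := sub_eq_zero.mpr h6
          rw [← this]
          ring
        exact (sub_eq_zero.mp h8).symm
      · intro t ht t' ht' htt
        rw [Finset.mem_coe] at ht ht'
        simp only [Prod.mk.injEq] at htt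
        obtain ⟨h4, h5⟩ := htt
        refine Prod.ext ?_ h4
        have h6 := hsub t ht
        have h6' := hsub t' ht'
        rw [h4, h5, h6'] at h6
        have : (t'.1 : ℤ) = t.1 := by linarith
        exact this.symm
    omega
  -- squares
  have hsq : ∑ n ∈ U, ν n ^ 2 ≤ 4 * ∑ x, rep p Q J x ^ 2 := by
    have h1 : ∑ n ∈ U, ν n ^ 2 = ∑ x : ZMod p, ∑ n ∈ U with ((n : ℤ) : ZMod p) - cl = x,
        ν n ^ 2 := (Finset.sum_fiberwise U (fun n : ℤ => ((n : ℤ) : ZMod p) - cl) _).symm
    rw [h1]
    have h2 : ∀ x : ZMod p, ∑ n ∈ U with ((n : ℤ) : ZMod p) - cl = x, ν n ^ 2 ≤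
        2 * rep p Q J x ^ 2 + 2 * rep p Q J (-x) ^ 2 := by
      intro x
      have h3 : ∑ n ∈ U with ((n : ℤ) : ZMod p) - cl = x, ν n ^ 2 ≤
          (∑ n ∈ U with ((n : ℤ) : ZMod p) - cl = x, ν n) ^ 2 := by
        rw [sq (∑ n ∈ U with ((n : ℤ) : ZMod p) - cl = x, ν n), Finset.sum_mul]
        refine Finset.sum_le_sum fun n hn => ?_
        rw [sq]
        exact Nat.mul_le_mul_left _ (Finset.single_le_sum (f := ν) (fun _ _ => Nat.zero_le _) hn)
      have h4 := Nat.pow_le_pow_left (hfib x) 2
      refine h3.trans (h4.trans ?_)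
      nlinarith [sq_nonneg ((rep p Q J x : ℤ) - rep p Q J (-x))]
    refine (Finset.sum_le_sum fun x _ => h2 x).trans ?_
    rw [Finset.sum_add_distrib, ← Finset.mul_sum, ← Finset.mul_sum]
    have h5 : ∑ x : ZMod p, rep p Q J (-x) ^ 2 = ∑ x : ZMod p, rep p Q J x ^ 2 :=
      Fintype.sum_equiv (Equiv.neg (ZMod p)) _ _ (fun x => by simp)
    rw [h5]
    omega
  rw [← htot]
  calc (∑ n ∈ U, ν n) ^ 2 ≤ U.card * ∑ n ∈ U, ν n ^ 2 := sq_sum_le_card_mul_sum_sq
    _ ≤ _ := Nat.mul_le_mul_left _ hsq

end Pool.Agent.helper8.HB
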