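import Mathlib
import Pool.Agent.helper85.MT.MLS
import Pool.Agent.helper9.Tors.Divs
import Pool.Agent.helper8.HB.Char

/-!
Project HB (hairbrush bound for MP_bb5cc8_nt), part 2: moments of short character sums over many
prime moduli by the large sieve.
-/

set_option autoImplicit false

namespace Pool.Agent.helper8.HB

open Finset

/-- The number of ways to write `m` as a product of `r` factors in `[1, J]`. -/
def tup (J r m : ℕ) : ℕ :=
  ((Fintype.piFinset (fun _ : Fin r => Icc 1 J)).filter (fun f => ∏ i, f i = m)).card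

theorem prod_mem {J r : ℕ} {f : Fin r → ℕ} (hf : f ∈ Fintype.piFinset (fun _ : Fin r => Icc 1 J)) :
    ∏ i, f i ∈ Ioc 0 (0 + J ^ r) := by
  rw [Fintype.mem_piFinset] at hf
  rw [mem_Ioc]
  constructor
  · exact Finset.prod_pos fun i _ => (mem_Icc.mp (hf i)).1
  · rw [zero_add]
    calc ∏ i, f i ≤ ∏ _i : Fin r, J := Finset.prod_le_prod' fun i _ => (mem_Icc.mp (hf i)).2
      _ = J ^ r := by simp

theorem charSum_pow {p : ℕ} (χ : DirichletCharacter ℂ p) (J r : ℕ) :
    charSum χ J ^ r = ∑ m ∈ Ioc 0 (0 + J ^ r), (tup J r m : ℂ) * χ m := by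
  classical
  have h1 : charSum χ J ^ r = ∑ f ∈ Fintype.piFinset (fun _ : Fin r => Icc 1 J),
      χ ((∏ i, f i : ℕ) : ZMod p) := by
    have h2 : charSum χ J ^ r = ∏ _i : Fin r, ∑ j ∈ Icc 1 J, χ (j : ZMod p) := by
      rw [Finset.prod_const, Finset.card_univ, Fintype.card_fin, charSum]
    rw [h2, Finset.prod_univ_sum]
    refine Finset.sum_congr rfl fun f _ => ?_
    rw [Nat.cast_prod, map_prod]
  rw [h1, ← Finset.sum_fiberwise_of_maps_to (fun f hf => prod_mem hf)]
  refine Finset.sum_congr rfl fun m _ => ?_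
  rw [tup, ← nsmul_eq_mul, ← Finset.sum_const]
  refine Finset.sum_congr rfl fun f hf => ?_
  rw [(Finset.mem_filter.mp hf).2]

theorem tup_sum (J r : ℕ) : ∑ m ∈ Ioc 0 (0 + J ^ r), tup J r m = J ^ r := by
  classical
  have h := Finset.card_eq_sum_card_fiberwise
    (s := Fintype.piFinset (fun _ : Fin r => Icc 1 J)) (t := Ioc 0 (0 + J ^ r))
    (f := fun f : Fin r → ℕ => ∏ i, f i) (fun f hf => prod_mem (Finset.mem_coe.mp hf))
  rw [Fintype.card_piFinset] at h
  simp only [Nat.card_Icc, Finset.prod_const, Finset.card_univ, Fintype.card_fin,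
    Nat.add_sub_cancel] at h
  exact h.symm

theorem tup_le (J r m : ℕ) (hm : m ≠ 0) : tup J r m ≤ m.divisors.card ^ r := by
  classical
  have h : ((Fintype.piFinset (fun _ : Fin r => Icc 1 J)).filter (fun f => ∏ i, f i = m)) ⊆
      Fintype.piFinset (fun _ : Fin r => m.divisors) := by
    intro f hf
    rw [Finset.mem_filter] at hf
    rw [Fintype.mem_piFinset]
    intro i
    rw [Nat.mem_divisors]
    refine ⟨?_, hm⟩
    rw [← hf.2]
    exact Finset.dvd_prod_of_mem _ (Finset.mem_univ i)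
  refine (Finset.card_le_card h).trans (le_of_eq ?_)
  rw [Fintype.card_piFinset]
  simp

open Classical in
/-- The `2 r`-th moment of the character sums over `[1, J]`. -/
noncomputable def Dmom (p J r : ℕ) : ℝ :=
  ∑ χ : DirichletCharacter ℂ p with χ ≠ 1, ‖charSum χ J‖ ^ (2 * r)

theorem Dmom_eq (p J r : ℕ) [Fact p.Prime] :
    ∑ χ : DirichletCharacter ℂ p with χ ≠ 1, ‖charSum χ J‖ ^ (2 * r) = Dmom p J r := by
  rw [Dmom]
  congr!

theorem moment_bound (X J r : ℕ) (B : ℝ) (hB : ∀ m ∈ Ioc 0 (0 + J ^ r), (tup J r m : ℝ) ≤ B)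
    (P : Finset ℕ) (hP : ∀ p ∈ P, p.Prime ∧ p ≤ 2 * X) :
    ∑ p ∈ P, Dmom p J r ≤
      5 * ((J : ℝ) ^ r + (2 * X) ^ 2) * (B * J ^ r) := by
  classical
  have hls := Pool.Agent.helper85.MT.mult_large_sieve (2 * X) 0 (J ^ r)
    (fun m => (tup J r m : ℂ))
  have h1 : ∑ n ∈ Ioc 0 (0 + J ^ r), ‖((tup J r n : ℕ) : ℂ)‖ ^ 2 ≤ B * J ^ r := by
    calc ∑ n ∈ Ioc 0 (0 + J ^ r), ‖((tup J r n : ℕ) : ℂ)‖ ^ 2
        ≤ ∑ n ∈ Ioc 0 (0 + J ^ r), B * (tup J r n : ℝ) := by
          refine Finset.sum_le_sum fun m hm => ?_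
          rw [Complex.norm_natCast, sq]
          exact mul_le_mul_of_nonneg_right (hB m hm) (Nat.cast_nonneg _)
      _ = B * J ^ r := by
          rw [← Finset.mul_sum]
          congr 1
          exact_mod_cast tup_sum J r
  have h2 : ∑ p ∈ P, Dmom p J r ≤
      ∑ q ∈ Icc 1 (2 * X), (q : ℝ) / Nat.totient q *
        ∑ χ : DirichletCharacter ℂ q with χ.IsPrimitive,
          ‖∑ n ∈ Ioc 0 (0 + J ^ r), (tup J r n : ℂ) * χ n‖ ^ 2 := by
    have hsub : P ⊆ Icc 1 (2 * X) := by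
      intro p hp
      rw [mem_Icc]
      exact ⟨(hP p hp).1.one_lt.le, (hP p hp).2⟩
    refine le_trans (Finset.sum_le_sum fun p hp => ?_)
      (Finset.sum_le_sum_of_subset_of_nonneg hsub fun q _ _ => by positivity)
    have hpp := (hP p hp).1
    have : (1 : ℝ) ≤ (p : ℝ) / Nat.totient p := by
      rw [le_div_iff₀ (by exact_mod_cast Nat.totient_pos.mpr hpp.pos), one_mul]
      exact_mod_cast Nat.totient_le p
    refine le_trans ?_ (le_mul_of_one_le_left (by positivity) this)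
    have hsum : Dmom p J r = ∑ χ : DirichletCharacter ℂ p with χ ≠ 1,
          ‖∑ n ∈ Ioc 0 (0 + J ^ r), (tup J r n : ℂ) * χ n‖ ^ 2 := by
      rw [Dmom]
      refine Finset.sum_congr rfl fun χ _ => ?_
      rw [← charSum_pow, norm_pow, ← pow_mul, mul_comm]
    rw [hsum]
    refine Finset.sum_le_sum_of_subset_of_nonneg ?_ fun χ _ _ => by positivity
    intro χ hχ
    rw [Finset.mem_filter] at hχ ⊢
    refine ⟨Finset.mem_univ _, ?_⟩
    rw [DirichletCharacter.isPrimitive_def]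
    have : NeZero p := ⟨hpp.ne_zero⟩
    rcases (Nat.dvd_prime hpp).mp (DirichletCharacter.conductor_dvd_level χ) with h | h
    · exact absurd ((DirichletCharacter.eq_one_iff_conductor_eq_one).mpr h) hχ.2
    · exact h
  refine h2.trans (hls.trans ?_)
  have h3 : (((J ^ r : ℕ) : ℝ) + ((2 * X : ℕ) : ℝ) ^ 2) = ((J : ℝ) ^ r + (2 * X) ^ 2) := by
    push_cast
    ring
  rw [h3]
  gcongr

end Pool.Agent.helper8.HB
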