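import Mathlib
import Pool.Agent.helper8.HB.Moment
import Pool.Agent.helper8.HB.Hair

/-!
Project HB (hairbrush bound for MP_bb5cc8_nt), part 4: the union of short progressions, one for
each prime, inside one window.
-/

set_option autoImplicit false

namespace Pool.Agent.helper8.HB

open Finset

/-- Two classes with different prime moduli meet in at most one point of a short window. -/
theorem meet {X k : ℕ} (hkX : 2 * k < X) {p q : ℕ} (hp : p.Prime) (hq : q.Prime) (hpq : p ≠ q)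
    (hpX : X ≤ p) (hqX : X ≤ q) {u n n' : ℤ} (hn : u < n ∧ n ≤ u + 2 * k * X)
    (hn' : u < n' ∧ n' ≤ u + 2 * k * X) (h1 : (p : ℤ) ∣ n - n') (h2 : (q : ℤ) ∣ n - n') :
    n = n' := by
  have hcop : IsCoprime (p : ℤ) (q : ℤ) :=
    Nat.isCoprime_iff_coprime.mpr ((Nat.coprime_primes hp hq).mpr hpq)
  have h3 : (p : ℤ) * q ∣ n - n' := hcop.mul_dvd h1 h2
  have h4 : |n - n'| < (p : ℤ) * q := by
    have h5 : |n - n'| < 2 * k * X := by
      rw [abs_lt]
      constructor <;> linarith [hn.1, hn.2, hn'.1, hn'.2]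
    have h6 : (2 * k * X : ℤ) ≤ X * X := by
      have : (2 * k : ℤ) < X := by exact_mod_cast hkX
      nlinarith
    have h7 : (X : ℤ) * X ≤ p * q := by
      have ha : (X : ℤ) ≤ p := by exact_mod_cast hpX
      have hb : (X : ℤ) ≤ q := by exact_mod_cast hqX
      have hc : (0 : ℤ) ≤ X := by positivity
      nlinarith
    linarith
  exact sub_eq_zero.mp (Int.eq_zero_of_abs_lt_dvd h3 h4)

/-- Arithmetic at the end of the window lemma. -/
theorem final_arith {s : ℕ} {k X Z M V D₁ D c E : ℝ} {pp : ℝ} (hk : 2 ≤ k) (hX : 0 < X)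
    (hZ : 0 < Z) (hM : 0 < M) (hV : 0 < V) (hc : 0 < c) (hE : 0 ≤ E) (hpl : X / 2 ≤ pp)
    (hpu : pp ≤ 2 * X) (hD₁ : D₁ = 4 * D / c)
    (hVr : V ^ (s + 1) = D₁ * M / X) (hZX : 256 * Z < X)
    (hMZ : k ^ 2 * c ≤ 16 * Z * M)
    (h1 : (M * (k - 1)) ^ 2 ≤ Z * (4 * E))
    (h2 : pp * E ≤ (M * (2 * k)) ^ 2 + V * (pp * M) + M ^ 2 * D₁ / V ^ s) :
    k ^ (4 * s + 2) * X * c ^ (s + 1) ≤ 3072 ^ (s + 1) * D * Z ^ (2 * s + 1) := by
  have h3 : M ^ 2 * D₁ / V ^ s = M * X * V := by
    rw [div_eq_iff (by positivity), mul_assoc, ← pow_succ', hVr]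
    field_simp
  rw [h3] at h2
  have h4 : X / 2 * E ≤ 4 * k ^ 2 * M ^ 2 + 3 * X * V * M := by
    have h5 : X / 2 * E ≤ pp * E := mul_le_mul_of_nonneg_right hpl hE
    have h6 : V * (pp * M) ≤ V * (2 * X * M) := by gcongr
    nlinarith
  have h5 : M ^ 2 * k ^ 2 / 4 ≤ Z * (4 * E) := by
    refine le_trans ?_ h1
    have : k ^ 2 / 4 ≤ (k - 1) ^ 2 := by nlinarith
    nlinarith [sq_nonneg M]
  have h6 : M * (M * k ^ 2 * X / 32) ≤ M * (Z * (4 * k ^ 2 * M + 3 * X * V)) := by
    have h7 : Z * (X / 2 * E) ≤ Z * (4 * k ^ 2 * M ^ 2 + 3 * X * V * M) := by gcongr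
    have h8 : X / 8 * (M ^ 2 * k ^ 2 / 4) ≤ X / 8 * (Z * (4 * E)) := by gcongr
    nlinarith
  have h7 : M * k ^ 2 * X / 32 ≤ Z * (4 * k ^ 2 * M + 3 * X * V) := le_of_mul_le_mul_left h6 hM
  have h8 : 4 * Z * k ^ 2 * M ≤ k ^ 2 * M * X / 64 := by
    have : 0 ≤ k ^ 2 * M := by positivity
    nlinarith
  have h9 : X * (M * k ^ 2) ≤ X * (192 * Z * V) := by nlinarith
  have h10 : M * k ^ 2 ≤ 192 * Z * V := le_of_mul_le_mul_left h9 hX
  have h11 : (M * k ^ 2) ^ (s + 1) ≤ (192 * Z * V) ^ (s + 1) := by gcongr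
  have h12 : (192 * Z * V) ^ (s + 1) = (192 * Z) ^ (s + 1) * (D₁ * M / X) := by
    rw [mul_pow (192 * Z), hVr]
  rw [h12] at h11
  have h13 : M ^ s * (k ^ 2) ^ (s + 1) * X * c ≤ (192 * Z) ^ (s + 1) * (4 * D) := by
    have h14 : M * (M ^ s * (k ^ 2) ^ (s + 1) * X * c) ≤ M * ((192 * Z) ^ (s + 1) * (4 * D)) := by
      calc M * (M ^ s * (k ^ 2) ^ (s + 1) * X * c) = (M * k ^ 2) ^ (s + 1) * (X * c) := by
            rw [mul_pow, pow_succ M s]
            ring
        _ ≤ ((192 * Z) ^ (s + 1) * (D₁ * M / X)) * (X * c) := by gcongr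
        _ = M * ((192 * Z) ^ (s + 1) * (4 * D)) := by
            rw [hD₁]
            field_simp
    exact le_of_mul_le_mul_left h14 hM
  have hD : 0 ≤ D := by
    by_contra hneg
    push Not at hneg
    have : (192 * Z) ^ (s + 1) * (4 * D) < 0 := by
      have : 0 < (192 * Z) ^ (s + 1) := by positivity
      nlinarith
    have h15 : 0 ≤ M ^ s * (k ^ 2) ^ (s + 1) * X * c := by positivity
    linarith
  have h14 : (k ^ 2 * c) ^ s ≤ (16 * Z * M) ^ s := by gcongr
  calc k ^ (4 * s + 2) * X * c ^ (s + 1) = (k ^ 2 * c) ^ s * ((k ^ 2) ^ (s + 1) * X * c) := by ring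
    _ ≤ (16 * Z * M) ^ s * ((k ^ 2) ^ (s + 1) * X * c) := by gcongr
    _ = (16 * Z) ^ s * (M ^ s * (k ^ 2) ^ (s + 1) * X * c) := by ring
    _ ≤ (16 * Z) ^ s * ((192 * Z) ^ (s + 1) * (4 * D)) := by gcongr
    _ ≤ (16 * Z) ^ s * ((192 * Z) ^ (s + 1) * (16 * D)) := by gcongr; norm_num
    _ = 3072 ^ (s + 1) * D * Z ^ (2 * s + 1) := by
        have : (3072 : ℝ) ^ (s + 1) = 16 ^ (s + 1) * 192 ^ (s + 1) := by
          rw [← mul_pow]; norm_num
        rw [this]
        ring

/-- The union of the short progressions inside one window. -/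
theorem window (X k s : ℕ) (hk : 2 ≤ k) (hkX : 2 * k < X) (P : Finset ℕ)
    (hP : ∀ p ∈ P, p.Prime ∧ X ≤ p ∧ p < 2 * X) (L : ℕ → Finset ℤ) (u : ℤ)
    (hL : ∀ p ∈ P, ∀ n ∈ L p, u < n ∧ n ≤ u + 2 * k * X) (hLc : ∀ p ∈ P, (L p).card = k)
    (a : ℕ → ℤ) (hcl : ∀ p ∈ P, ∀ n ∈ L p, (p : ℤ) ∣ n - a p)
    (D : ℝ) (hD0 : 0 < D) (hD : ∑ p ∈ P, Dmom p (2 * k) (s + 1) ≤ D) :
    (k : ℝ) * P.card ≤ 8 * (P.biUnion L).card ∨ (X : ℝ) ≤ 256 * (P.biUnion L).card ∨
      (k : ℝ) ^ (4 * s + 2) * X * (P.card : ℝ) ^ (s + 1) ≤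
        3072 ^ (s + 1) * D * ((P.biUnion L).card : ℝ) ^ (2 * s + 1) := by
  classical
  rcases P.eq_empty_or_nonempty with hPe | hPne
  · left
    rw [hPe]
    simp
  by_cases hA : (k : ℝ) * P.card ≤ 8 * (P.biUnion L).card
  · exact Or.inl hA
  by_cases hB : (X : ℝ) ≤ 256 * (P.biUnion L).card
  · exact Or.inr (Or.inl hB)
  right
  right
  push Not at hA hB
  set U := P.biUnion L with hU
  have hdvd : ∀ p ∈ P, ∀ n ∈ L p, ∀ n' ∈ L p, (p : ℤ) ∣ n - n' := by
    intro p hp n hn n' hn'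
    have := dvd_sub (hcl p hp n hn) (hcl p hp n' hn')
    rwa [sub_sub_sub_cancel_right] at this
  have hmeet : ∀ p ∈ P, ∀ q ∈ P, p ≠ q → ∀ n n', n ∈ L p → n ∈ L q → n' ∈ L p → n' ∈ L q →
      n = n' := by
    intro p hp q hq hpq n n' h1 h2 h3 h4
    exact meet hkX (hP p hp).1 (hP q hq).1 hpq (hP p hp).2.1 (hP q hq).2.1 (hL p hp n h1)
      (hL p hp n' h3) (hdvd p hp n h1 n' h3) (hdvd q hq n h2 n' h4)
  -- basic quantities
  have hPc : 0 < P.card := Finset.card_pos.mpr hPne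
  have hc : (0 : ℝ) < P.card := by exact_mod_cast hPc
  have hkR : (2 : ℝ) ≤ k := by exact_mod_cast hk
  have hk0 : (0 : ℝ) < k := by linarith
  have hUne : U.Nonempty := by
    obtain ⟨p, hp⟩ := hPne
    have : (L p).Nonempty := by
      rw [← Finset.card_pos, hLc p hp]
      omega
    obtain ⟨n, hn⟩ := this
    exact ⟨n, Finset.mem_biUnion.mpr ⟨p, hp, hn⟩⟩
  have hZN : 0 < U.card := Finset.card_pos.mpr hUne
  have hZ : (0 : ℝ) < U.card := by exact_mod_cast hZN
  have hX : (0 : ℝ) < X := by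
    have : 0 < X := by omega
    exact_mod_cast this
  set μ : ℤ → ℕ := fun n => (P.filter fun p => n ∈ L p).card with hμ
  set m₀ : ℝ := k * P.card / (4 * U.card) with hm₀
  have hm₀2 : 2 < m₀ := by
    rw [hm₀, lt_div_iff₀ (by positivity)]
    linarith
  -- poor points
  set poor : ℕ → ℕ := fun p => ((L p).filter fun n => (μ n : ℝ) < m₀).card with hpoor
  have hpsum : ((∑ p ∈ P, poor p : ℕ) : ℝ) ≤ k * P.card / 4 := by
    have h1 : ∑ p ∈ P, poor p = ∑ n ∈ U with (μ n : ℝ) < m₀, μ n := by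
      have h2 : ∀ p ∈ P, poor p = ∑ n ∈ U with (μ n : ℝ) < m₀, if n ∈ L p then 1 else 0 := by
        intro p hp
        rw [← Finset.card_filter]
        change ((L p).filter fun n => (μ n : ℝ) < m₀).card = _
        congr 1
        ext n
        simp only [Finset.mem_filter]
        constructor
        · rintro ⟨h3, h4⟩
          exact ⟨⟨Finset.mem_biUnion.mpr ⟨p, hp, h3⟩, h4⟩, h3⟩
        · rintro ⟨⟨_, h4⟩, h3⟩
          exact ⟨h3, h4⟩
      rw [Finset.sum_congr rfl h2, Finset.sum_comm]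
      refine Finset.sum_congr rfl fun n _ => ?_
      change _ = (P.filter fun p => n ∈ L p).card
      rw [Finset.card_filter]
    rw [h1]
    push_cast
    calc ∑ n ∈ U with (μ n : ℝ) < m₀, (μ n : ℝ) ≤ ∑ n ∈ U with (μ n : ℝ) < m₀, m₀ :=
          Finset.sum_le_sum fun n hn => (Finset.mem_filter.mp hn).2.le
      _ = ((U.filter fun n => (μ n : ℝ) < m₀).card : ℝ) * m₀ := by
          rw [Finset.sum_const, nsmul_eq_mul]
      _ ≤ (U.card : ℝ) * m₀ := by
          have : ((U.filter fun n => (μ n : ℝ) < m₀).card : ℝ) ≤ U.card := by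
            exact_mod_cast Finset.card_filter_le _ _
          gcongr
      _ = k * P.card / 4 := by
          rw [hm₀]
          field_simp
  -- the stem
  obtain ⟨p, hp, hpw⟩ : ∃ p ∈ P, (poor p : ℝ) * (2 / k) + Dmom p (2 * k) (s + 1) *
      (P.card / (4 * D)) < 1 := by
    refine Finset.exists_lt_of_sum_lt ?_
    rw [Finset.sum_add_distrib, ← Finset.sum_mul, ← Finset.sum_mul]
    push_cast at hpsum
    have h1 : (∑ p ∈ P, (poor p : ℝ)) * (2 / k) ≤ (k * P.card / 4) * (2 / k) := by gcongr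
    have h2 : (∑ p ∈ P, Dmom p (2 * k) (s + 1)) * (P.card / (4 * D)) ≤
        D * (P.card / (4 * D)) := by gcongr
    have h3 : (k * P.card / 4) * (2 / k) = (P.card : ℝ) / 2 := by
      field_simp
      norm_num
    have h4 : D * (P.card / (4 * D)) = (P.card : ℝ) / 4 := by
      field_simp
    have h5 : ∑ _p ∈ P, (1 : ℝ) = P.card := by simp
    rw [h5]
    linarith
  have hDnn : 0 ≤ Dmom p (2 * k) (s + 1) := by
    rw [Dmom]
    positivity
  have hpoorp : (poor p : ℝ) < k / 2 := by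
    have h1 : (poor p : ℝ) * (2 / k) < 1 := by
      have : 0 ≤ Dmom p (2 * k) (s + 1) * (P.card / (4 * D)) := by positivity
      linarith
    rw [mul_div_assoc', div_lt_one hk0] at h1
    linarith
  have hDp : Dmom p (2 * k) (s + 1) ≤ 4 * D / P.card := by
    have h1 : Dmom p (2 * k) (s + 1) * (P.card / (4 * D)) < 1 := by
      have : 0 ≤ (poor p : ℝ) * (2 / k) := by positivity
      linarith
    rw [mul_div_assoc', div_lt_one (by positivity)] at h1
    rw [le_div_iff₀ hc]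
    linarith
  have hpp : p.Prime := (hP p hp).1
  have : Fact p.Prime := ⟨hpp⟩
  -- rich points on the stem
  set R := (L p).filter fun n => m₀ ≤ (μ n : ℝ) with hR
  have hRc : (k : ℝ) / 2 ≤ R.card := by
    have h1 : R.card + poor p = k := by
      rw [← hLc p hp, hR, hpoor]
      have h2 := Finset.card_filter_add_card_filter_not (s := L p) (fun n => m₀ ≤ (μ n : ℝ))
      simp only [not_le] at h2
      exact h2
    have h2 : (R.card : ℝ) + poor p = k := by exact_mod_cast h1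
    linarith
  set Q := P.filter fun q => q ≠ p ∧ ∃ n ∈ R, n ∈ L q with hQ
  have hQM : (k : ℝ) * m₀ / 4 ≤ Q.card := by
    -- pairs
    have h1 : ((R ×ˢ P).filter fun t => t.2 ≠ p ∧ t.1 ∈ L t.2).card ≤ Q.card := by
      refine Finset.card_le_card_of_injOn (fun t => t.2) ?_ ?_
      · intro t ht
        rw [Finset.mem_coe, Finset.mem_filter, Finset.mem_product] at ht
        rw [Finset.mem_coe, hQ, Finset.mem_filter]
        exact ⟨ht.1.2, ht.2.1, t.1, ht.1.1, ht.2.2⟩
      · intro t ht t' ht' htt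
        rw [Finset.mem_coe, Finset.mem_filter, Finset.mem_product] at ht ht'
        simp only at htt
        refine Prod.ext ?_ htt
        refine hmeet p hp t.2 ht.1.2 (Ne.symm ht.2.1) t.1 t'.1 (Finset.mem_filter.mp ht.1.1).1
          ht.2.2 (Finset.mem_filter.mp ht'.1.1).1 ?_
        rw [htt]
        exact ht'.2.2
    have h2 : ((R ×ˢ P).filter fun t => t.2 ≠ p ∧ t.1 ∈ L t.2).card = ∑ n ∈ R, (μ n - 1) := by
      rw [Finset.card_filter, Finset.sum_product]
      refine Finset.sum_congr rfl fun n hn => ?_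
      rw [← Finset.card_filter]
      have h3 : (P.filter fun q => q ≠ p ∧ n ∈ L q) = (P.filter fun q => n ∈ L q).erase p := by
        ext q
        rw [Finset.mem_filter, Finset.mem_erase, Finset.mem_filter]
        tauto
      have h4 : p ∈ P.filter fun q => n ∈ L q := by
        rw [Finset.mem_filter]
        exact ⟨hp, (Finset.mem_filter.mp hn).1⟩
      rw [h3, Finset.card_erase_of_mem h4]
    rw [h2] at h1
    have h3 : (R.card : ℝ) * (m₀ / 2) ≤ ((∑ n ∈ R, (μ n - 1) : ℕ) : ℝ) := by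
      push_cast
      rw [← nsmul_eq_mul, ← Finset.sum_const]
      refine Finset.sum_le_sum fun n hn => ?_
      have h4 : m₀ ≤ (μ n : ℝ) := (Finset.mem_filter.mp hn).2
      have h5 : (1 : ℝ) ≤ μ n := by linarith
      have h6 : 1 ≤ μ n := by exact_mod_cast h5
      rw [Nat.cast_sub h6, Nat.cast_one]
      linarith
    have h4 : ((∑ n ∈ R, (μ n - 1) : ℕ) : ℝ) ≤ Q.card := by exact_mod_cast h1
    have h5 : (k : ℝ) / 2 * (m₀ / 2) ≤ (R.card : ℝ) * (m₀ / 2) := by
      have : 0 ≤ m₀ / 2 := by linarith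
      gcongr
    linarith
  have hM : (0 : ℝ) < Q.card := by
    have : 0 < (k : ℝ) * m₀ / 4 := by
      have : 0 < m₀ := by linarith
      positivity
    linarith
  -- intersection points
  have hcex : ∀ q ∈ Q, ∃ n, n ∈ R ∧ n ∈ L q := by
    intro q hq
    obtain ⟨n, h1, h2⟩ := (Finset.mem_filter.mp hq).2.2
    exact ⟨n, h1, h2⟩
  choose! c hcR hcL using hcex
  have hQP : ∀ q ∈ Q, q ∈ P := fun q hq => (Finset.mem_filter.mp hq).1
  have hhair := hair p ((a p : ℤ) : ZMod p) Q (2 * k) k L U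
    (fun q hq => Finset.subset_biUnion_of_mem L (hQP q hq)) (fun q hq => hLc q (hQP q hq)) c hcL
    (by
      intro q hq
      have h1 : c q ∈ L p := (Finset.mem_filter.mp (hcR q hq)).1
      have h2 := hcl p hp (c q) h1
      have h3 := (ZMod.intCast_zmod_eq_zero_iff_dvd (c q - a p) p).mpr h2
      rw [Int.cast_sub] at h3
      exact sub_eq_zero.mp h3)
    (by
      intro q hq n hn hne
      have hqP := hQP q hq
      obtain ⟨t, ht⟩ := hdvd q hqP n hn (c q) (hcL q hq)
      have hq0 : (0 : ℤ) < q := by exact_mod_cast (hP q hqP).1.pos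
      have ht0 : t ≠ 0 := by
        rintro rfl
        rw [mul_zero, sub_eq_zero] at ht
        exact hne ht
      have hbd : |n - c q| < 2 * k * X := by
        have h1 := hL q hqP n hn
        have h2 := hL q hqP (c q) (hcL q hq)
        rw [abs_lt]
        constructor <;> linarith [h1.1, h1.2, h2.1, h2.2]
      have hXq : (X : ℤ) ≤ q := by exact_mod_cast (hP q hqP).2.1
      have htb : |t| ≤ 2 * k := by
        rw [ht, abs_mul, abs_of_pos hq0] at hbd
        by_contra hcon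
        push Not at hcon
        have h3 : (2 * k : ℤ) * X ≤ |t| * q := by
          have : (0 : ℤ) ≤ X := by positivity
          nlinarith
        nlinarith
      have htb' : t.natAbs ≤ 2 * k := by
        have h3 : ((t.natAbs : ℕ) : ℤ) ≤ 2 * k := by
          rw [Int.natCast_natAbs]
          exact htb
        exact_mod_cast h3
      refine ⟨t.natAbs, Int.natAbs_pos.mpr ht0, htb', ?_⟩
      rcases le_or_gt 0 t with h0 | h0
      · left
        rw [Int.natAbs_of_nonneg h0]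
        linarith
      · right
        have : ((t.natAbs : ℕ) : ℤ) = -t := by omega
        rw [this]
        linarith)
  -- the energy
  set E : ℝ := ∑ x : ZMod p, (rep p Q (2 * k) x : ℝ) ^ 2 with hE
  have hE0 : 0 ≤ E := by positivity
  set D₁ : ℝ := 4 * D / P.card with hD₁
  have hD₁0 : 0 < D₁ := by positivity
  set V : ℝ := (D₁ * Q.card / X) ^ (((s + 1 : ℕ) : ℝ)⁻¹) with hV
  have hV0 : 0 < V := by positivity
  have hVr : V ^ (s + 1) = D₁ * Q.card / X := by
    rw [hV]
    exact Real.rpow_inv_natCast_pow (by positivity) (by omega)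
  have hen := energy_bound (p := p) Q (2 * k) (s + 1) (by omega)
    (by
      intro q hq hdiv
      have hne : q ≠ p := (Finset.mem_filter.mp hq).2.1
      exact hne ((Nat.prime_dvd_prime_iff_eq hpp (hP q (hQP q hq)).1).mp hdiv).symm)
    (by
      intro q hq q' hq' hqq
      simp only at hqq
      rw [ZMod.natCast_eq_natCast_iff'] at hqq
      have h1 := hP q (hQP q (Finset.mem_coe.mp hq))
      have h2 := hP q' (hQP q' (Finset.mem_coe.mp hq'))
      have h3 := hP p hp
      by_contra hne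
      rcases lt_or_gt_of_ne hne with h | h
      · have h4 : p ∣ q' - q := (Nat.modEq_iff_dvd' h.le).mp hqq
        have := Nat.le_of_dvd (by omega) h4
        omega
      · have h4 : p ∣ q - q' := (Nat.modEq_iff_dvd' h.le).mp hqq.symm
        have := Nat.le_of_dvd (by omega) h4
        omega)
    (lt_of_lt_of_le hkX (hP p hp).2.1) V hV0
  rw [Dmom_eq, Nat.add_sub_cancel] at hen
  have hpX : (X : ℝ) ≤ p := by exact_mod_cast (hP p hp).2.1
  have hpX2 : (p : ℝ) ≤ 2 * X := by exact_mod_cast (hP p hp).2.2.le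
  have hX4 : (4 : ℝ) ≤ X := by
    have : 4 ≤ X := by omega
    exact_mod_cast this
  refine final_arith (k := k) (X := X) (Z := U.card) (M := Q.card) (V := V) (D₁ := D₁) (D := D)
    (c := P.card) (E := E) (pp := (p : ℝ) - 1) hkR hX hZ hM hV0 hc hE0 (by linarith) (by linarith)
    hD₁ hVr hB ?_ ?_ ?_
  · have h1 : (U.card : ℝ) * (k * m₀ / 4) = k ^ 2 * P.card / 16 := by
      rw [hm₀]
      field_simp
      norm_num
    have h2 : (U.card : ℝ) * (k * m₀ / 4) ≤ U.card * Q.card := by gcongr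
    linarith
  · have h1 : (((Q.card * (k - 1)) ^ 2 : ℕ) : ℝ) ≤
        ((U.card * (4 * ∑ x, rep p Q (2 * k) x ^ 2) : ℕ) : ℝ) := by exact_mod_cast hhair
    push_cast [Nat.cast_sub (show 1 ≤ k by omega)] at h1
    exact h1
  · refine le_trans hen ?_
    push_cast
    gcongr

end Pool.Agent.helper8.HB
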