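import Mathlib
import Pool.Agent.helper8.HB.Window

/-!
Project HB (hairbrush bound for MP_bb5cc8_nt), part 5: windows and numerical part.
-/

set_option autoImplicit false

namespace Pool.Agent.helper8.HB

open Finset

theorem class_window (p : ℕ) (hp : 0 < p) (a u : ℤ) (k : ℕ) :
    ∃ S : Finset ℤ, S.card = k ∧ (∀ n ∈ S, (p : ℤ) ∣ n - a) ∧ ∀ n ∈ S, u < n ∧ n ≤ u + k * p := by
  classical
  have hp' : (0 : ℤ) < p := by exact_mod_cast hp
  set n₀ : ℤ := u + 1 + (a - u - 1) % p with hn₀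
  have h1 : (0 : ℤ) ≤ (a - u - 1) % p := Int.emod_nonneg _ hp'.ne'
  have h2 : (a - u - 1) % p < p := Int.emod_lt_of_pos _ hp'
  have h3 : (p : ℤ) ∣ n₀ - a := by
    refine ⟨-((a - u - 1) / p), ?_⟩
    have := Int.emod_add_mul_ediv (a - u - 1) p
    rw [hn₀]
    linarith
  refine ⟨(Finset.range k).image fun i : ℕ => n₀ + i * p, ?_, ?_, ?_⟩
  · rw [Finset.card_image_of_injective, Finset.card_range]
    intro i j hij
    simp only [add_right_inj] at hij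
    exact_mod_cast mul_right_cancel₀ hp'.ne' hij
  · intro n hn
    rw [Finset.mem_image] at hn
    obtain ⟨i, _, rfl⟩ := hn
    have : n₀ + (i : ℤ) * p - a = (n₀ - a) + i * p := by ring
    rw [this]
    exact dvd_add h3 (Dvd.intro_left _ rfl)
  · intro n hn
    rw [Finset.mem_image] at hn
    obtain ⟨i, hi, rfl⟩ := hn
    rw [Finset.mem_range] at hi
    have h4 : (0 : ℤ) ≤ (i : ℤ) * p := by positivity
    have h5 : ((i : ℤ) + 1) * p ≤ k * p := by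
      have : (i : ℤ) + 1 ≤ k := by exact_mod_cast hi
      nlinarith
    constructor
    · linarith
    · have : ((i : ℤ) + 1) * p = i * p + p := by ring
      linarith

/-- Summing the window lemma over disjoint windows. -/
theorem windows (N X k s W : ℕ) (hk : 2 ≤ k) (hkX : 2 * k < X) (hW : W * (2 * k * X) ≤ N)
    (P : Finset ℕ) (hP : ∀ p ∈ P, p.Prime ∧ X ≤ p ∧ p < 2 * X) (a : ℕ → ℤ)
    (D : ℝ) (hD0 : 0 < D) (hD : ∑ p ∈ P, Dmom p (2 * k) (s + 1) ≤ D) (z : ℝ)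
    (hz : ∀ Z : ℕ, ((k : ℝ) * P.card ≤ 8 * Z ∨ (X : ℝ) ≤ 256 * Z ∨
      (k : ℝ) ^ (4 * s + 2) * X * (P.card : ℝ) ^ (s + 1) ≤
        3072 ^ (s + 1) * D * (Z : ℝ) ^ (2 * s + 1)) → z ≤ Z)
    (A : Finset ℕ) (hA : ∀ n : ℕ, 1 ≤ n → n ≤ N → ∀ p ∈ P, (p : ℤ) ∣ (n : ℤ) - a p → n ∈ A) :
    W * z ≤ A.card := by
  classical
  have hex : ∀ (i p : ℕ), ∃ S : Finset ℤ, p ∈ P → (S.card = k ∧ (∀ n ∈ S, (p : ℤ) ∣ n - a p) ∧
      ∀ n ∈ S, ((i * (2 * k * X) : ℕ) : ℤ) < n ∧ n ≤ ((i * (2 * k * X) : ℕ) : ℤ) + k * p) := by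
    intro i p
    by_cases hp : p ∈ P
    · obtain ⟨S, hS⟩ := class_window p (hP p hp).1.pos (a p) ((i * (2 * k * X) : ℕ) : ℤ) k
      exact ⟨S, fun _ => hS⟩
    · exact ⟨∅, fun h => absurd h hp⟩
  choose L hL using hex
  have hLw : ∀ i, ∀ p ∈ P, ∀ n ∈ L i p, ((i * (2 * k * X) : ℕ) : ℤ) < n ∧
      n ≤ ((i * (2 * k * X) : ℕ) : ℤ) + 2 * k * X := by
    intro i p hp n hn
    have h1 := (hL i p hp).2.2 n hn
    refine ⟨h1.1, h1.2.trans ?_⟩
    have h2 : (p : ℤ) ≤ 2 * X := by exact_mod_cast (hP p hp).2.2.le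
    have h3 : (0 : ℤ) ≤ k := by positivity
    nlinarith
  have hZ : ∀ i, z ≤ ((P.biUnion (L i)).card : ℝ) := by
    intro i
    refine hz _ (window X k s hk hkX P hP (L i) ((i * (2 * k * X) : ℕ) : ℤ) (hLw i)
      (fun p hp => (hL i p hp).1) a (fun p hp => (hL i p hp).2.1) D hD0 hD)
  have hdisj : ∀ i ∈ Finset.range W, ∀ j ∈ Finset.range W, i ≠ j →
      Disjoint (P.biUnion (L i)) (P.biUnion (L j)) := by
    intro i _ j _ hij
    rw [Finset.disjoint_left]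
    intro n hn hn'
    rw [Finset.mem_biUnion] at hn hn'
    obtain ⟨p, hp, h1⟩ := hn
    obtain ⟨q, hq, h2⟩ := hn'
    have h3 := hLw i p hp n h1
    have h4 := hLw j q hq n h2
    rcases lt_or_gt_of_ne hij with h | h
    · have h5 : (i + 1) * (2 * k * X) ≤ j * (2 * k * X) := Nat.mul_le_mul_right _ h
      have h6 : (((i + 1) * (2 * k * X) : ℕ) : ℤ) ≤ ((j * (2 * k * X) : ℕ) : ℤ) := by
        exact_mod_cast h5
      push_cast at h3 h4 h6
      nlinarith [h3.2, h4.1]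
    · have h5 : (j + 1) * (2 * k * X) ≤ i * (2 * k * X) := Nat.mul_le_mul_right _ h
      have h6 : (((j + 1) * (2 * k * X) : ℕ) : ℤ) ≤ ((i * (2 * k * X) : ℕ) : ℤ) := by
        exact_mod_cast h5
      push_cast at h3 h4 h6
      nlinarith [h4.2, h3.1]
  have hcard := Finset.card_biUnion hdisj
  have hsub : (Finset.range W).biUnion (fun i => P.biUnion (L i)) ⊆ A.image (Nat.cast : ℕ → ℤ) := by
    intro n hn
    rw [Finset.mem_biUnion] at hn
    obtain ⟨i, hi, hn⟩ := hn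
    rw [Finset.mem_biUnion] at hn
    obtain ⟨p, hp, hn⟩ := hn
    have h1 := hLw i p hp n hn
    have h0 : (0 : ℤ) < n := lt_of_le_of_lt (by positivity) h1.1
    have h2 : n ≤ N := by
      refine h1.2.trans ?_
      have h3 : (i + 1) * (2 * k * X) ≤ W * (2 * k * X) :=
        Nat.mul_le_mul_right _ (Finset.mem_range.mp hi)
      have h4 : (((i + 1) * (2 * k * X) : ℕ) : ℤ) ≤ (N : ℤ) := by
        exact_mod_cast h3.trans hW
      push_cast at h4 ⊢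
      linarith
    rw [Finset.mem_image]
    refine ⟨n.toNat, ?_, Int.toNat_of_nonneg h0.le⟩
    refine hA n.toNat (by omega) (by omega) p hp ?_
    rw [Int.toNat_of_nonneg h0.le]
    exact (hL i p hp).2.1 n hn
  have h1 : ((Finset.range W).biUnion (fun i => P.biUnion (L i))).card ≤ A.card :=
    (Finset.card_le_card hsub).trans Finset.card_image_le
  rw [hcard] at h1
  have h2 : (((∑ i ∈ Finset.range W, (P.biUnion (L i)).card) : ℕ) : ℝ) ≤ A.card := by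
    exact_mod_cast h1
  refine le_trans ?_ h2
  push_cast
  calc (W : ℝ) * z = ∑ _i ∈ Finset.range W, z := by simp
    _ ≤ _ := Finset.sum_le_sum fun i _ => hZ i

theorem numeric2 {s : ℕ} {x y g T k X c B K₂ Z : ℝ} (hx : 1 ≤ x) (hy : 0 < y) (hg : 1 ≤ g)
    (hT : 0 < T) (hk : y / 32 ≤ k) (hX1 : x ≤ X) (hX2 : X ≤ 2 * x) (hc : x / g ≤ c) (hB0 : 0 < B)
    (hB : B ≤ K₂ * g ^ (2 * (s + 1))) (hk2 : (2 * k) ^ (s + 1) ≤ x ^ 2)
    (hTx : T ^ (2 * s + 1) * x ^ (s + 1) * g ^ (8 * (2 * s + 1)) ≤ y ^ s)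
    (hK : 3072 ^ (s + 1) * 85 * 2 ^ (s + 1) * 4 ^ (2 * s + 1) * K₂ * 128 ^ s ≤ g)
    (hZ : 0 ≤ Z)
    (h : k ^ (4 * s + 2) * X * c ^ (s + 1) ≤
      3072 ^ (s + 1) * (5 * ((2 * k) ^ (s + 1) + (2 * X) ^ 2) * (B * (2 * k) ^ (s + 1))) *
        Z ^ (2 * s + 1)) :
    4 * k * X * T ≤ Z := by
  have hk0 : 0 < k := lt_of_lt_of_le (by positivity) hk
  have hx0 : 0 < x := by linarith
  have hX0 : 0 < X := by linarith
  have hg0 : 0 < g := by linarith
  have hc0 : 0 < c := lt_of_lt_of_le (by positivity) hc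
  have hK₂ : 0 ≤ K₂ := by
    by_contra hneg
    push Not at hneg
    have : K₂ * g ^ (2 * (s + 1)) ≤ 0 := mul_nonpos_of_nonpos_of_nonneg hneg.le (by positivity)
    linarith
  set DD : ℝ := 3072 ^ (s + 1) * (5 * ((2 * k) ^ (s + 1) + (2 * X) ^ 2) * (B * (2 * k) ^ (s + 1)))
    with hDD
  have hDD0 : 0 < DD := by positivity
  have hmain : DD * (4 * k * X * T) ^ (2 * s + 1) ≤ k ^ (4 * s + 2) * X * c ^ (s + 1) := by
    have h1 : 5 * ((2 * k) ^ (s + 1) + (2 * X) ^ 2) ≤ 85 * x ^ 2 := by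
      have : X ^ 2 ≤ (2 * x) ^ 2 := by gcongr
      nlinarith
    have h2 : DD ≤ 3072 ^ (s + 1) * (85 * x ^ 2 * (K₂ * g ^ (2 * (s + 1)) * (2 * k) ^ (s + 1))) := by
      rw [hDD]
      gcongr
    have hXs : X ^ (2 * s) ≤ (2 * x) ^ (2 * s) := by gcongr
    have h3 : K₂ * (3072 ^ (s + 1) * 85 * 2 ^ (s + 1) * 4 ^ (2 * s + 1)) * 4 ^ s *
        g ^ (2 * s + 2) * x ^ (2 * s + 2) * T ^ (2 * s + 1) ≤ k ^ s * c ^ (s + 1) := by
      have h4 : (y / 32) ^ s * (x / g) ^ (s + 1) ≤ k ^ s * c ^ (s + 1) := by gcongr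
      refine le_trans ?_ h4
      have h5 : (T ^ (2 * s + 1) * x ^ (s + 1) * g ^ (8 * (2 * s + 1))) / 32 ^ s *
          (x / g) ^ (s + 1) ≤ (y / 32) ^ s * (x / g) ^ (s + 1) := by
        rw [div_pow y]
        gcongr
      refine le_trans ?_ h5
      have h6 : (T ^ (2 * s + 1) * x ^ (s + 1) * g ^ (8 * (2 * s + 1))) / 32 ^ s *
          (x / g) ^ (s + 1) = T ^ (2 * s + 1) * x ^ (2 * s + 2) * g ^ (15 * s + 7) / 32 ^ s := by
        rw [div_pow x]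
        have : g ^ (8 * (2 * s + 1)) = g ^ (15 * s + 7) * g ^ (s + 1) := by
          rw [← pow_add]
          congr 1
          ring
        rw [this]
        field_simp
        ring
      rw [h6]
      have h7 : g ^ 1 * g ^ (2 * s + 2) ≤ g ^ (15 * s + 7) := by
        rw [← pow_add]
        exact pow_le_pow_right₀ hg (by omega)
      have h8 : K₂ * (3072 ^ (s + 1) * 85 * 2 ^ (s + 1) * 4 ^ (2 * s + 1)) * 4 ^ s * 32 ^ s ≤ g := by
        refine le_trans (le_of_eq ?_) hK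
        have : (128 : ℝ) ^ s = 4 ^ s * 32 ^ s := by
          rw [← mul_pow]
          norm_num
        rw [this]
        ring
      rw [le_div_iff₀ (by positivity)]
      calc K₂ * (3072 ^ (s + 1) * 85 * 2 ^ (s + 1) * 4 ^ (2 * s + 1)) * 4 ^ s *
            g ^ (2 * s + 2) * x ^ (2 * s + 2) * T ^ (2 * s + 1) * 32 ^ s
          = (K₂ * (3072 ^ (s + 1) * 85 * 2 ^ (s + 1) * 4 ^ (2 * s + 1)) * 4 ^ s * 32 ^ s) *
            (g ^ (2 * s + 2) * x ^ (2 * s + 2) * T ^ (2 * s + 1)) := by ring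
        _ ≤ g * (g ^ (2 * s + 2) * x ^ (2 * s + 2) * T ^ (2 * s + 1)) := by gcongr
        _ = (g ^ 1 * g ^ (2 * s + 2)) * (x ^ (2 * s + 2) * T ^ (2 * s + 1)) := by ring
        _ ≤ g ^ (15 * s + 7) * (x ^ (2 * s + 2) * T ^ (2 * s + 1)) := by gcongr
        _ = _ := by ring
    calc DD * (4 * k * X * T) ^ (2 * s + 1)
        ≤ 3072 ^ (s + 1) * (85 * x ^ 2 * (K₂ * g ^ (2 * (s + 1)) * (2 * k) ^ (s + 1))) *
          (4 * k * X * T) ^ (2 * s + 1) := by gcongr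
      _ = K₂ * (3072 ^ (s + 1) * 85 * 2 ^ (s + 1) * 4 ^ (2 * s + 1)) * g ^ (2 * s + 2) * x ^ 2 *
          T ^ (2 * s + 1) * k ^ (3 * s + 2) * X * X ^ (2 * s) := by ring
      _ ≤ K₂ * (3072 ^ (s + 1) * 85 * 2 ^ (s + 1) * 4 ^ (2 * s + 1)) * g ^ (2 * s + 2) * x ^ 2 *
          T ^ (2 * s + 1) * k ^ (3 * s + 2) * X * (2 * x) ^ (2 * s) := by gcongr
      _ = (K₂ * (3072 ^ (s + 1) * 85 * 2 ^ (s + 1) * 4 ^ (2 * s + 1)) * 4 ^ s *
            g ^ (2 * s + 2) * x ^ (2 * s + 2) * T ^ (2 * s + 1)) * (k ^ (3 * s + 2) * X) := by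
          have : (4 : ℝ) ^ s = 2 ^ (2 * s) := by
            rw [pow_mul]
            norm_num
          rw [this]
          ring
      _ ≤ (k ^ s * c ^ (s + 1)) * (k ^ (3 * s + 2) * X) := by gcongr
      _ = k ^ (4 * s + 2) * X * c ^ (s + 1) := by ring
  have hfin : (4 * k * X * T) ^ (2 * s + 1) ≤ Z ^ (2 * s + 1) :=
    le_of_mul_le_mul_left (hmain.trans h) hDD0
  exact le_of_pow_le_pow_left₀ (by omega) hZ hfin

end Pool.Agent.helper8.HB
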