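import Mathlib
import Pool.Agent.helper86.StarFinal
import Pool.Agent.helper8.HB.Num

/-!
Project HB (hairbrush bound for MP_bb5cc8_nt), part 6: the final bound.
-/

set_option autoImplicit false

namespace Pool.Agent.helper8.HB

open Finset Filter Pool.Agent.helper86

theorem main {α κ ε : ℝ} (hα : 0 < α) (hα1 : α < 1) {s : ℕ} (hs : 1 ≤ s) (hκ : 0 < κ)
    (hκr : κ * (s + 1) ≤ 2) (hακ : α * (1 + κ) ≤ 1) (hε : 0 < ε) :
    ∀ᶠ N : ℕ in atTop, ∀ a : ℕ → ℤ,
      (N : ℝ) ^ (1 - α * max κ ((s + 1 - s * κ) / (2 * s + 1)) - ε) ≤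
        (((dyadicPrimes ((N : ℝ) ^ α)).biUnion (Acl N a)).card : ℝ) := by
  classical
  set δ : ℝ := min ε 1 / 8 with hδdef
  have hδ : 0 < δ := by
    rw [hδdef]
    have : 0 < min ε 1 := lt_min hε one_pos
    positivity
  have hδε : δ ≤ ε / 8 := by
    rw [hδdef]
    have : min ε 1 ≤ ε := min_le_left _ _
    linarith
  have hδ1 : δ < 1 := by
    rw [hδdef]
    have : min ε 1 ≤ 1 := min_le_right _ _
    linarith
  obtain ⟨C, hC0, hC⟩ := Pool.Agent.helper9.Tors.divisor_bound δ hδ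
  have htend : ∀ e : ℝ, 0 < e → Tendsto (fun N : ℕ => (N : ℝ) ^ e) atTop atTop := fun e he =>
    (tendsto_rpow_atTop he).comp tendsto_natCast_atTop_atTop
  have hε8 : 0 < ε / 8 := by positivity
  have ev1 := (htend α hα).eventually (dyadicPrimes_ge hδ hδ1)
  have ev2 := (htend (α * κ) (by positivity)).eventually_ge_atTop 64
  have ev3 := (htend (ε / 8) hε8).eventually_ge_atTop
    (3072 ^ (s + 1) * 85 * 2 ^ (s + 1) * 4 ^ (2 * s + 1) * C ^ (s + 1) * 128 ^ s)
  have ev4 := (htend (ε / 8) hε8).eventually_ge_atTop 64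
  filter_upwards [ev1, ev2, ev3, ev4, eventually_ge_atTop 1] with N h1 h2 h3 h4 h5
  intro a
  have hN1 : (1 : ℝ) ≤ N := by exact_mod_cast h5
  have hN0 : (0 : ℝ) < N := by linarith
  set x : ℝ := (N : ℝ) ^ α with hxdef
  set y : ℝ := (N : ℝ) ^ (α * κ) with hydef
  set g : ℝ := (N : ℝ) ^ (ε / 8) with hgdef
  set m : ℝ := max κ ((s + 1 - s * κ) / (2 * s + 1)) with hmdef
  set T : ℝ := (N : ℝ) ^ (-(α * m) - ε) with hTdef
  set P := dyadicPrimes x with hPdef
  have hx1 : 1 ≤ x := Real.one_le_rpow hN1 hα.le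
  have hx0 : 0 < x := by linarith
  have hg1 : 1 ≤ g := by linarith
  have hg0 : 0 < g := by linarith
  have hy0 : 0 < y := by linarith
  have hT0 : 0 < T := Real.rpow_pos_of_pos hN0 _
  have hsR : (1 : ℝ) ≤ s := by exact_mod_cast hs
  have hκ1 : κ ≤ 1 := by nlinarith
  -- powers of `g`
  have hg8 : g ^ 8 = (N : ℝ) ^ ε := by
    rw [hgdef, ← Real.rpow_natCast, ← Real.rpow_mul hN0.le]
    congr 1
    push_cast
    ring
  have hxδ : x ^ δ ≤ g := by
    rw [hxdef, hgdef, ← Real.rpow_mul hN0.le]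
    refine Real.rpow_le_rpow_of_exponent_le hN1 ?_
    nlinarith
  -- facts on `T`
  have hTy : T * y * g ^ 8 ≤ 1 := by
    rw [hg8, hTdef, hydef, ← Real.rpow_add hN0, ← Real.rpow_add hN0]
    refine Real.rpow_le_one_of_one_le_of_nonpos hN1 ?_
    have : α * κ ≤ α * m := mul_le_mul_of_nonneg_left (le_max_left _ _) hα.le
    linarith
  have hTx : T ^ (2 * s + 1) * x ^ (s + 1) * g ^ (8 * (2 * s + 1)) ≤ y ^ s := by
    rw [pow_mul g, hg8, hTdef, hxdef, hydef]
    simp only [← Real.rpow_natCast]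
    simp only [← Real.rpow_mul hN0.le, ← Real.rpow_add hN0]
    refine Real.rpow_le_rpow_of_exponent_le hN1 ?_
    have hf : (s + 1 - s * κ) / (2 * s + 1) ≤ m := le_max_right _ _
    rw [div_le_iff₀ (by positivity)] at hf
    push_cast
    have : α * (s + 1 - s * κ) ≤ α * (m * (2 * s + 1)) := mul_le_mul_of_nonneg_left hf hα.le
    nlinarith
  have hyx : y ≤ x := by
    rw [hxdef, hydef]
    refine Real.rpow_le_rpow_of_exponent_le hN1 ?_
    nlinarith
  have hxy : x * y ≤ N := by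
    rw [hxdef, hydef, ← Real.rpow_add hN0]
    calc (N : ℝ) ^ (α + α * κ) ≤ (N : ℝ) ^ (1 : ℝ) := by
          refine Real.rpow_le_rpow_of_exponent_le hN1 ?_
          linarith
      _ = N := Real.rpow_one _
  have hyr : y ^ (s + 1) ≤ x ^ 2 := by
    rw [hxdef, hydef]
    simp only [← Real.rpow_natCast]
    simp only [← Real.rpow_mul hN0.le]
    refine Real.rpow_le_rpow_of_exponent_le hN1 ?_
    push_cast
    nlinarith
  -- the integers
  set X : ℕ := ⌈x⌉₊ with hX
  set k : ℕ := ⌊y / 16⌋₊ with hk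
  have hXx : x ≤ X := Nat.le_ceil x
  have hX2 : (X : ℝ) ≤ 2 * x := by
    have := Nat.ceil_lt_add_one hx0.le
    linarith
  have hkl : y / 32 ≤ k := by
    have h6 : y / 16 < k + 1 := Nat.lt_floor_add_one _
    linarith
  have hku : (k : ℝ) ≤ y / 16 := Nat.floor_le (by positivity)
  have hk2 : 2 ≤ k := by
    rw [hk]
    refine Nat.le_floor ?_
    push_cast
    linarith
  have hkR : (2 : ℝ) ≤ k := by exact_mod_cast hk2
  have hkX : 2 * k < X := by
    have : ((2 * k : ℕ) : ℝ) < X := by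
      push_cast
      linarith
    exact_mod_cast this
  have hPp : ∀ p ∈ P, p.Prime ∧ X ≤ p ∧ p < 2 * X := by
    intro p hp
    rw [hPdef, mem_dyadicPrimes] at hp
    refine ⟨hp.1, Nat.ceil_le.mpr hp.2.1, ?_⟩
    have h6 : (p : ℝ) < ((2 * X : ℕ) : ℝ) := by
      push_cast
      linarith [hp.2.2]
    exact_mod_cast h6
  have hPc : x / g ≤ P.card := by
    refine le_trans ?_ h1
    rw [Real.rpow_sub hx0, Real.rpow_one]
    have : 0 < x ^ δ := Real.rpow_pos_of_pos hx0 _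
    gcongr
  have h2k : (2 * (k : ℝ)) ^ (s + 1) ≤ x ^ 2 := by
    refine le_trans ?_ hyr
    have : 2 * (k : ℝ) ≤ y := by linarith
    gcongr
  -- the moment
  set B : ℝ := (C * (x ^ 2) ^ δ) ^ (s + 1) with hB
  have hx2δ : (0 : ℝ) < (x ^ 2) ^ δ := by positivity
  have hB0 : 0 < B := by positivity
  have hBg : B ≤ C ^ (s + 1) * g ^ (2 * (s + 1)) := by
    rw [hB, mul_pow, pow_mul g]
    have h6 : (x ^ 2) ^ δ = (x ^ δ) ^ 2 := by
      rw [← Real.rpow_natCast, ← Real.rpow_natCast, ← Real.rpow_mul hx0.le,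
        ← Real.rpow_mul hx0.le, mul_comm]
    rw [h6]
    have h7 : 0 < x ^ δ := Real.rpow_pos_of_pos hx0 _
    gcongr
  have htup : ∀ n ∈ Ioc 0 (0 + (2 * k) ^ (s + 1)), (tup (2 * k) (s + 1) n : ℝ) ≤ B := by
    intro n hn
    rw [mem_Ioc, zero_add] at hn
    have hn0 : n ≠ 0 := by omega
    have h6 : (tup (2 * k) (s + 1) n : ℝ) ≤ ((n.divisors.card : ℕ) : ℝ) ^ (s + 1) := by
      exact_mod_cast tup_le (2 * k) (s + 1) n hn0
    refine h6.trans ?_
    have h7 := hC n hn0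
    have h8 : (n : ℝ) ≤ x ^ 2 := by
      refine le_trans ?_ h2k
      have := hn.2
      exact_mod_cast this
    have h9 : (n : ℝ) ^ δ ≤ (x ^ 2) ^ δ := Real.rpow_le_rpow (by positivity) h8 hδ.le
    rw [hB]
    gcongr
    refine h7.trans ?_
    gcongr
  have hmom := moment_bound X (2 * k) (s + 1) B htup P
    (fun p hp => ⟨(hPp p hp).1, (hPp p hp).2.2.le⟩)
  push_cast at hmom
  set D : ℝ := 5 * ((2 * (k : ℝ)) ^ (s + 1) + (2 * (X : ℝ)) ^ 2) * (B * (2 * (k : ℝ)) ^ (s + 1))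
    with hD
  have hD0 : 0 < D := by positivity
  -- the number of windows
  set W : ℕ := N / (2 * k * X) with hW
  have hWN : W * (2 * k * X) ≤ N := Nat.div_mul_le_self _ _
  have hkXN : 4 * (k : ℝ) * X ≤ N / 2 := by
    have h6 : (k : ℝ) * X ≤ (y / 16) * (2 * x) := by gcongr
    have h7 : y / 16 * (2 * x) = x * y / 8 := by ring
    linarith
  have hkX0 : 0 < (k : ℝ) * X := by positivity
  have hWl : (N : ℝ) ≤ W * (4 * k * X) := by
    have h6 : N < (W + 1) * (2 * k * X) := by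
      rw [hW]
      have : 0 < 2 * k * X := by
        have : 0 < k := by omega
        have : 0 < X := by omega
        positivity
      have := Nat.lt_div_mul_add this (a := N)
      linarith
    have h7 : (N : ℝ) < (W + 1) * (2 * k * X) := by exact_mod_cast h6
    nlinarith
  -- the bound for one window
  have hz : ∀ Z : ℕ, ((k : ℝ) * P.card ≤ 8 * Z ∨ (X : ℝ) ≤ 256 * Z ∨
      (k : ℝ) ^ (4 * s + 2) * X * (P.card : ℝ) ^ (s + 1) ≤
        3072 ^ (s + 1) * D * (Z : ℝ) ^ (2 * s + 1)) → 4 * (k : ℝ) * X * T ≤ Z := by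
    intro Z hZ
    have hg7 : 64 ≤ g ^ 7 := by
      calc (64 : ℝ) ≤ g ^ 1 := by linarith
        _ ≤ g ^ 7 := pow_le_pow_right₀ hg1 (by norm_num)
    have hg8' : g ^ 8 = g ^ 7 * g := by ring
    rcases hZ with hZ | hZ | hZ
    · have h6 : T * g ^ 8 ≤ 1 := by
        have : T * g ^ 8 * 1 ≤ T * g ^ 8 * y := by
          have : (1 : ℝ) ≤ y := by linarith
          gcongr
        linarith
      have h7 : 64 * (T * g) ≤ 1 := by
        have : 64 * (T * g) ≤ g ^ 7 * (T * g) := by gcongr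
        rw [hg8'] at h6
        linarith
      have h8 : (k : ℝ) * (x / g) ≤ 8 * Z := by
        refine le_trans ?_ hZ
        gcongr
      have h9 : (k : ℝ) * x ≤ 8 * Z * g := by
        rw [mul_div_assoc', div_le_iff₀ hg0] at h8
        exact h8
      have h10 : 4 * (k : ℝ) * X * T ≤ 4 * (k : ℝ) * (2 * x) * T := by gcongr
      have h11 : 4 * (k : ℝ) * (2 * x) * T = 8 * T * (k * x) := by ring
      have h12 : 8 * T * (k * x) ≤ 8 * T * (8 * Z * g) := by gcongr
      have h13 : 8 * T * (8 * Z * g) = Z * (64 * (T * g)) := by ring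
      have h14 : (Z : ℝ) * (64 * (T * g)) ≤ Z * 1 := by gcongr
      linarith
    · have h6 : 64 * (T * y) ≤ 1 := by
        have h7 : 64 * (T * y) ≤ g ^ 8 * (T * y) := by
          have : (64 : ℝ) ≤ g ^ 8 := by
            rw [hg8']
            nlinarith
          gcongr
        linarith
      have h8 : 1024 * ((k : ℝ) * T) ≤ 1 := by
        have : (k : ℝ) * T ≤ y / 16 * T := by gcongr
        linarith
      have h9 : 4 * (k : ℝ) * X * T = X / 256 * (1024 * (k * T)) := by ring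
      have h10 : (X : ℝ) / 256 * (1024 * (k * T)) ≤ X / 256 * 1 := by gcongr
      linarith
    · exact numeric2 hx1 hy0 hg1 hT0 hkl hXx hX2 hPc hB0 hBg h2k hTx h3 (Nat.cast_nonneg _) hZ
  have hfin := windows N X k s W hk2 hkX hWN P hPp a D hD0 hmom (4 * (k : ℝ) * X * T) hz
    (P.biUnion (Acl N a)) (by
      intro n hn1 hnN p hp hdiv
      rw [Finset.mem_biUnion]
      exact ⟨p, hp, mem_Acl.mpr ⟨⟨hn1, hnN⟩, hdiv⟩⟩)
  refine le_trans ?_ hfin
  have h6 : (N : ℝ) ^ (1 - α * m - ε) = N * T := by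
    rw [hTdef, show (1 - α * m - ε) = 1 + (-(α * m) - ε) by ring, Real.rpow_add hN0,
      Real.rpow_one]
  rw [h6]
  calc (N : ℝ) * T ≤ (W * (4 * k * X)) * T := by gcongr
    _ = W * (4 * (k : ℝ) * X * T) := by ring

end Pool.Agent.helper8.HB
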